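import Mathlib
import Pool.Agent.Leo4.Stmts
import Pool.Agent.Helper68_Leo4.Basic

/-!
# Squad leo4: module KEY
-/

set_option autoImplicit false

open NumberField IsDedekindDomain Module Polynomial IntermediateField
open Pool.Agent.Leo3 (NoMu W)

namespace Pool.Agent.Leo4.H65

/-- A model of the quadratic extension `k(√d)`. -/
theorem exists_quad (k : Type) [Field k] [NumberField k] (d : k) (hd : ∀ x : k, x ^ 2 ≠ d) :
    ∃ (F : Type) (_ : Field F) (_ : NumberField F) (_ : Algebra k F) (s : F),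
      finrank k F = 2 ∧ s ^ 2 = algebraMap k F d := by
  set f : k[X] := X ^ 2 - C d with hf
  have hmon : f.Monic := monic_X_pow_sub_C _ (by norm_num)
  have hdeg : f.natDegree = 2 := natDegree_X_pow_sub_C
  have hirr : Irreducible f := by
    rw [Polynomial.irreducible_iff_roots_eq_zero_of_degree_le_three (by omega) (by omega)]
    rw [Multiset.eq_zero_iff_forall_notMem]
    intro x hx
    rw [mem_roots hmon.ne_zero, IsRoot.def, hf] at hx
    simp only [eval_sub, eval_pow, eval_X, eval_C] at hx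
    exact hd x (sub_eq_zero.1 hx)
  have : Fact (Irreducible f) := ⟨hirr⟩
  let F := AdjoinRoot f
  have hfin : Module.Finite k F := (AdjoinRoot.powerBasis hirr.ne_zero).finite
  have hnf : NumberField F := NumberField.of_module_finite k F
  refine ⟨F, inferInstance, hnf, inferInstance, AdjoinRoot.root f, ?_, ?_⟩
  · rw [(AdjoinRoot.powerBasis hirr.ne_zero).finrank, AdjoinRoot.powerBasis_dim, hdeg]
  · have h := AdjoinRoot.eval₂_root f
    rw [hf] at h
    simp only [eval₂_sub, eval₂_pow, eval₂_X, eval₂_C] at h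
    rw [sub_eq_zero] at h
    rw [h]
    rfl

theorem minpoly_f {K : Type} [Field K] [NumberField K] {f : K} (hf : f ^ 2 = f + 1) :
    minpoly ℚ f = X ^ 2 - X - 1 := by
  have hdeg : (X ^ 2 - X - 1 : ℚ[X]).natDegree = 2 := by compute_degree!
  have hmon : (X ^ 2 - X - 1 : ℚ[X]).Monic := by monicity!
  symm
  refine minpoly.eq_of_irreducible_of_monic ?_ ?_ hmon
  · rw [Polynomial.irreducible_iff_roots_eq_zero_of_degree_le_three (by omega) (by omega)]
    rw [Multiset.eq_zero_iff_forall_notMem]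
    intro x hx
    rw [mem_roots hmon.ne_zero, IsRoot.def] at hx
    simp only [eval_sub, eval_pow, eval_X, eval_one] at hx
    have h5 : Irrational (Real.sqrt 5) := by
      have : Irrational (Real.sqrt ((5 : ℕ) : ℝ)) := Nat.Prime.irrational_sqrt (by norm_num)
      simpa using this
    apply h5
    refine ⟨|2 * x - 1|, ?_⟩
    have h6 : ((2 * x - 1 : ℚ) : ℝ) ^ 2 = 5 := by
      have h7 : (2 * x - 1) ^ 2 = 5 := by linear_combination 4 * hx
      exact_mod_cast h7
    rw [Rat.cast_abs, ← Real.sqrt_sq_eq_abs, h6]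
  · simp only [map_sub, map_pow, aeval_X, map_one]
    rw [hf]
    ring

/-- KEY -/
theorem key (hNMK : NmkStmt) (hMNS : MnsStmt) (hREF : RefStmt) (hHIL : HilStmt) (hRNK : RnkStmt)
    (hEIS : EisStmt) : KeyStmt := by
  intro K _ _ f r m hK hf hr hm hno
  have hint : IsIntegral ℚ f := Algebra.IsIntegral.isIntegral f
  have hmp := minpoly_f hf
  have hdeg : (X ^ 2 - X - 1 : ℚ[X]).natDegree = 2 := by compute_degree!
  have hk2 : finrank ℚ ℚ⟮f⟯ = 2 := by
    rw [IntermediateField.adjoin.finrank hint, hmp, hdeg]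
  have hkK : finrank ℚ⟮f⟯ K = 2 := by
    have h := finrank_mul_finrank ℚ ℚ⟮f⟯ K
    rw [hk2, hK] at h
    omega
  set f' : ℚ⟮f⟯ := AdjoinSimple.gen ℚ f with hf'
  have hff : algebraMap ℚ⟮f⟯ K f' = f := AdjoinSimple.algebraMap_gen ℚ f
  have hf2 : f' ^ 2 = f' + 1 := by
    apply (algebraMap ℚ⟮f⟯ K).injective
    rw [map_pow, map_add, map_one, hff, hf]
  have hr2 : r ^ 2 = algebraMap ℚ⟮f⟯ K (3 * ev f' m) := by
    rw [map_mul, map_ofNat, map_ev, hff, hr]
  have hNo : NoMu K := hNMK ℚ⟮f⟯ K f' r m hk2 hf2 hkK hr2 hm.cls.three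
  refine ⟨hNo, ?_⟩
  intro z hz hv hl
  by_contra hcon
  obtain ⟨A, c, s₁, hBad⟩ := hMNS ℚ⟮f⟯ K f' r m hk2 hf2 hkK hr2 hm hNo z hz hv hl hcon
  -- a real embedding
  obtain ⟨σ, hσ⟩ : ∃ σ : ℚ⟮f⟯ →+* ℝ, σ f' = Real.goldenRatio := by
    have hmem : Real.goldenRatio ∈ (minpoly ℚ f).aroots ℝ := by
      rw [mem_aroots]
      refine ⟨minpoly.ne_zero hint, ?_⟩
      rw [hmp]
      simp only [map_sub, map_pow, aeval_X, map_one]
      linear_combination Real.goldenRatio_sq
    refine ⟨((IntermediateField.algHomAdjoinIntegralEquiv ℚ hint).symm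
      ⟨Real.goldenRatio, hmem⟩ : ℚ⟮f⟯ →ₐ[ℚ] ℝ).toRingHom, ?_⟩
    exact IntermediateField.algHomAdjoinIntegralEquiv_symm_apply_gen ℚ hint _
  have hnsq : ∀ x : ℚ⟮f⟯, x ^ 2 ≠ -ev f' m := by
    intro x hx
    have h1 := congrArg σ hx
    rw [map_pow, map_neg, map_ev, hσ] at h1
    have h2 := sq_nonneg (σ x)
    rw [h1] at h2
    have h3 : 0 < ev Real.goldenRatio m := hm.pos1
    linarith
  obtain ⟨K', _, _, _, s, hK', hs⟩ := exists_quad ℚ⟮f⟯ (-ev f' m) hnsq
  rw [map_neg] at hs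
  obtain ⟨L, _, _, _, hgal, hL, hunr⟩ := hREF ℚ⟮f⟯ K' f' s m A c s₁ hk2 hf2 hK' hs hm hBad
  obtain ⟨hrk, hmu⟩ := hRNK ℚ⟮f⟯ K' L f' s m hk2 hf2 hK' hs hm hL
  have h3 := hHIL K' L hL hunr hrk hmu
  exact hno (hEIS ℚ⟮f⟯ K' f' s m hk2 hf2 hK' hs hm h3)

end Pool.Agent.Leo4.H65
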