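import Mathlib
import Pool.Agent.Leo4.Stmts
import Pool.Agent.Helper68_Leo4.Basic

/-!
# Squad leo4: module RNK (unit ranks and cube roots of unity)
-/

set_option autoImplicit false

open NumberField IsDedekindDomain Module

namespace Pool.Agent.Leo4.H65

theorem gold_or {f : ℝ} (hf : f ^ 2 = f + 1) : f = Real.goldenRatio ∨ f = Real.goldenConj := by
  have h1 : Real.goldenRatio + Real.goldenConj = 1 := Real.goldenRatio_add_goldenConj
  have h2 : Real.goldenRatio * Real.goldenConj = -1 := Real.goldenRatio_mul_goldenConj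
  have h3 : (f - Real.goldenRatio) * (f - Real.goldenConj) = 0 := by
    linear_combination hf - f * h1 + h2
  rcases mul_eq_zero.1 h3 with h | h
  · exact Or.inl (sub_eq_zero.1 h)
  · exact Or.inr (sub_eq_zero.1 h)

theorem ev_pos {f : ℝ} (hf : f ^ 2 = f + 1) {m : O} (hm : Good m) : 0 < ev f m := by
  rcases gold_or hf with h | h
  · rw [h]
    exact hm.pos1
  · rw [h]
    exact hm.pos2

/-- `K = k(√-m)` is totally complex. -/
theorem totc {k K : Type} [Field k] [NumberField k] [Field K] [NumberField K] [Algebra k K] {f : k}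
    {s : K} {m : O} (hf : f ^ 2 = f + 1) (hs : s ^ 2 = -algebraMap k K (ev f m)) (hm : Good m) :
    IsTotallyComplex K := by
  refine ⟨fun w => ?_⟩
  by_contra hw
  rw [InfinitePlace.not_isComplex_iff_isReal] at hw
  have h1 := congrArg (InfinitePlace.embedding_of_isReal hw) hs
  rw [map_pow, map_neg, map_ev, map_ev] at h1
  have h2 : (InfinitePlace.embedding_of_isReal hw (algebraMap k K f)) ^ 2 =
      InfinitePlace.embedding_of_isReal hw (algebraMap k K f) + 1 := by
    rw [← map_pow, ← map_pow, hf, map_add, map_add, map_one, map_one]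
  have h3 := ev_pos h2 hm
  have h4 := sq_nonneg (InfinitePlace.embedding_of_isReal hw s)
  rw [h1] at h4
  linarith

theorem rank_totc (K : Type) [Field K] [NumberField K] [IsTotallyComplex K] {d : ℕ}
    (h : finrank ℚ K = 2 * d) : Units.rank K = d - 1 := by
  have h1 := IsTotallyComplex.finrank K
  have h2 := InfinitePlace.card_eq_nrRealPlaces_add_nrComplexPlaces K
  have h3 := IsTotallyComplex.nrRealPlaces_eq_zero K
  rw [Units.rank, h2, h3]
  omega

theorem isIntegral_ev {k : Type} [Field k] {f : k} (hf : f ^ 2 = f + 1) (x : O) :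
    IsIntegral ℤ (ev f x) := by
  have h1 : IsIntegral ℤ f := by
    refine ⟨Polynomial.X ^ 2 - Polynomial.X - 1, ?_, ?_⟩
    · monicity!
    · simp only [Polynomial.eval₂_sub, Polynomial.eval₂_pow, Polynomial.eval₂_X,
        Polynomial.eval₂_one]
      rw [hf]
      ring
  have h2 : ∀ n : ℤ, IsIntegral ℤ (n : k) := fun n => by
    have h := isIntegral_algebraMap (R := ℤ) (A := k) (x := n)
    simpa using h
  exact (h2 _).add ((h2 _).mul h1)

/-- RNK -/
theorem rnk (hO : OkrStmt) : RnkStmt := by
  obtain ⟨_, _, _, h3, _, _, _, _, _, _, hint⟩ := hO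
  intro k K L _ _ _ _ _ _ _ _ f s m hk hf hK hs hm hL
  have hT : IsTotallyComplex K := totc hf hs hm
  have hTL : IsTotallyComplex L := isTotallyComplex_of_algebra K L
  have hK4 : finrank ℚ K = 2 * 2 := by
    have h := finrank_mul_finrank ℚ k K
    rw [hk, hK] at h
    exact h.symm
  have hL12 : finrank ℚ L = 2 * 6 := by
    have h := finrank_mul_finrank ℚ K L
    rw [hK4, hL] at h
    omega
  refine ⟨?_, ?_⟩
  · rw [rank_totc K hK4, rank_totc L hL12]
    norm_num
  -- squares of `k` which come from `O`
  have hsq : ∀ (a : k) (z : O), a ^ 2 = ev f z → ∃ y : O, a = ev f y ∧ y ^ 2 = z := by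
    intro a z ha
    have h1 : IsIntegral ℤ a := by
      refine IsIntegral.of_pow (n := 2) (by norm_num) ?_
      rw [ha]
      exact isIntegral_ev hf z
    obtain ⟨y, hy⟩ := hint k f hk hf a h1
    refine ⟨y, hy, ?_⟩
    apply ev_inj hf
    rw [ev_pow hf, ← hy, ha]
  have hpos : ∀ y z : O, y ^ 2 = z → 0 ≤ e1 z := by
    intro y z hy
    rw [← hy, e1_pow]
    exact sq_nonneg _
  -- `s` is not in `k`
  have hsk : ∀ t : k, algebraMap k K t ≠ s := by
    intro t ht
    have h1 : t ^ 2 = ev f (-m) := by
      apply (algebraMap k K).injective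
      rw [map_pow, ht, hs, ev_neg, map_neg]
    obtain ⟨y, -, hy⟩ := hsq t _ h1
    have h2 := hpos y _ hy
    rw [e1_neg] at h2
    linarith [hm.pos1]
  -- coordinates
  have hco : ∀ x : K, ∃ a b : k, x = algebraMap k K a + algebraMap k K b * s := by
    have hli : LinearIndependent k ![(1 : K), s] := by
      rw [LinearIndependent.pair_iff]
      intro a b hab
      have hb : b = 0 := by
        by_contra hb
        apply hsk (-a / b)
        have hb' : algebraMap k K b ≠ 0 := by
          rwa [Ne, map_eq_zero]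
        rw [map_div₀, div_eq_iff hb', map_neg]
        rw [Algebra.smul_def, Algebra.smul_def, mul_one] at hab
        linear_combination -hab
      rw [hb, zero_smul, add_zero, Algebra.smul_def, mul_one, map_eq_zero] at hab
      exact ⟨hab, hb⟩
    have hsp := hli.span_eq_top_of_card_eq_finrank' (by simp [hK])
    intro x
    have hx : x ∈ Submodule.span k (Set.range ![(1 : K), s]) := by
      rw [hsp]
      exact Submodule.mem_top
    rw [Matrix.range_cons, Matrix.range_cons, Matrix.range_empty, Set.union_empty,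
      Set.singleton_union, Submodule.mem_span_pair] at hx
    obtain ⟨a, b, hab⟩ := hx
    refine ⟨a, b, ?_⟩
    rw [← hab, Algebra.smul_def, Algebra.smul_def, mul_one]
  intro x hx
  by_contra hx1
  have h5 : x ^ 2 + x + 1 = 0 := by
    have h6 : (x - 1) * (x ^ 2 + x + 1) = 0 := by linear_combination hx
    rcases mul_eq_zero.1 h6 with h | h
    · exact absurd (sub_eq_zero.1 h) hx1
    · exact h
  obtain ⟨a, b, hab⟩ := hco (2 * x + 1)
  have h7 : (algebraMap k K a + algebraMap k K b * s) ^ 2 = -3 := by
    rw [← hab]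
    linear_combination 4 * h5
  have h8 : algebraMap k K (2 * a * b) * s = algebraMap k K (-3 - a ^ 2 + b ^ 2 * ev f m) := by
    simp only [map_mul, map_add, map_sub, map_neg, map_pow, map_ofNat]
    linear_combination h7 - (algebraMap k K b) ^ 2 * hs
  have h9 : 2 * a * b = 0 := by
    by_contra h
    apply hsk ((-3 - a ^ 2 + b ^ 2 * ev f m) / (2 * a * b))
    have h' : algebraMap k K (2 * a * b) ≠ 0 := by
      rwa [Ne, map_eq_zero]
    rw [map_div₀, div_eq_iff h', ← h8, mul_comm]
  have h10 : -3 - a ^ 2 + b ^ 2 * ev f m = 0 := by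
    rw [h9, map_zero, zero_mul] at h8
    exact ((map_eq_zero (algebraMap k K)).1 h8.symm)
  have h11 : a = 0 ∨ b = 0 := by
    rcases mul_eq_zero.1 h9 with h | h
    · rcases mul_eq_zero.1 h with h | h
      · exact absurd h two_ne_zero
      · exact Or.inl h
    · exact Or.inr h
  rcases h11 with h | h
  · -- `b² m = 3`
    subst h
    have h12 : (b * ev f m) ^ 2 = ev f (3 * m) := by
      rw [ev_mul hf, ev_ofNat]
      linear_combination (ev f m) * h10
    obtain ⟨y, -, hy⟩ := hsq _ _ h12
    have h13 : (3 : O) ∣ y := h3.dvd_of_dvd_pow (n := 2) (by rw [hy]; exact Dvd.intro _ rfl)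
    obtain ⟨z, rfl⟩ := h13
    have h14 : m = 3 * z ^ 2 := by
      have h15 : (3 : O) * (3 * z ^ 2) = 3 * m := by
        rw [← hy]
        ring
      exact (mul_left_cancel₀ h3.ne_zero h15).symm
    exact hm.cls.three 0 (by
      rw [h14]
      exact ⟨z ^ 2, by ring⟩)
  · -- `a² = -3`
    subst h
    have h12 : a ^ 2 = ev f (-3) := by
      rw [ev_neg, ev_ofNat]
      linear_combination -h10
    obtain ⟨y, -, hy⟩ := hsq _ _ h12
    have h13 := hpos y _ hy
    rw [e1_neg, e1_ofNat] at h13
    norm_num at h13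

end Pool.Agent.Leo4.H65
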